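import Pool.Agent.Run7.h342.MD.Stm

/-!
# Piece DG of project MD (helper342), by helper594
-/

set_option autoImplicit false
set_option linter.all false

namespace Run7.h594.MD

open MvPolynomial Run7.h342.MD

noncomputable section

section dd

variable {σ : Type} [Fintype σ] {k : Type} [Field k]

theorem dd_add (P Q : MvPolynomial σ k) (c v : σ → k) : dd (P + Q) c v = dd P c v + dd Q c v := by
  unfold dd
  rw [← Finset.sum_add_distrib]
  refine Finset.sum_congr rfl fun q _ => ?_
  rw [map_add, map_add, mul_add]

theorem dd_mul (P Q : MvPolynomial σ k) (c v : σ → k) :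
    dd (P * Q) c v = eval c P * dd Q c v + eval c Q * dd P c v := by
  unfold dd
  rw [Finset.mul_sum, Finset.mul_sum, ← Finset.sum_add_distrib]
  refine Finset.sum_congr rfl fun q _ => ?_
  rw [Derivation.leibniz, map_add, smul_eq_mul, smul_eq_mul, map_mul, map_mul]
  ring

theorem dd_C (a : k) (c v : σ → k) : dd (C a : MvPolynomial σ k) c v = 0 := by
  unfold dd
  refine Finset.sum_eq_zero fun q _ => ?_
  rw [pderiv_C, map_zero, mul_zero]

theorem dd_X (i : σ) (c v : σ → k) : dd (X i : MvPolynomial σ k) c v = v i := by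
  classical
  unfold dd
  rw [Finset.sum_eq_single i]
  · rw [pderiv_X_self, map_one, mul_one]
  · intro j _ hj
    rw [pderiv_X_of_ne hj.symm, map_zero, mul_zero]
  · intro h
    exact absurd (Finset.mem_univ _) h

theorem dd_pow (P : MvPolynomial σ k) (c v : σ → k) (h : eval c P = 1) (m : ℕ) :
    dd (P ^ m) c v = m * dd P c v := by
  induction m with
  | zero =>
    rw [pow_zero, ← C_1, dd_C]
    simp
  | succ m ih =>
    rw [pow_succ, dd_mul, ih, map_pow, h]
    push_cast
    ring

theorem dd_addv (P : MvPolynomial σ k) (c v v' : σ → k) :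
    dd P c (v + v') = dd P c v + dd P c v' := by
  unfold dd
  rw [← Finset.sum_add_distrib]
  refine Finset.sum_congr rfl fun q _ => ?_
  rw [Pi.add_apply, add_mul]

theorem dd_smulv (P : MvPolynomial σ k) (c v : σ → k) (a : k) :
    dd P c (a • v) = a * dd P c v := by
  unfold dd
  rw [Finset.mul_sum]
  refine Finset.sum_congr rfl fun q _ => ?_
  rw [Pi.smul_apply, smul_eq_mul, mul_assoc]

/-- the directional derivative as a derivative -/
theorem dd_line (P : MvPolynomial σ k) (c v : σ → k) : dd P c v =
    (Polynomial.derivative (aeval (fun q => (Polynomial.C (c q) + Polynomial.X * Polynomial.C (v q) :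
      Polynomial k)) P)).eval 0 := by
  have hev : ∀ Q : MvPolynomial σ k, (aeval (fun q => (Polynomial.C (c q) +
      Polynomial.X * Polynomial.C (v q) : Polynomial k)) Q).eval 0 = eval c Q := by
    intro Q
    induction Q using MvPolynomial.induction_on with
    | C a => simp
    | add P Q h1 h2 => rw [map_add, Polynomial.eval_add, h1, h2, map_add]
    | mul_X P i h =>
      rw [map_mul, Polynomial.eval_mul, h, map_mul, aeval_X, eval_X]
      simp
  induction P using MvPolynomial.induction_on with
  | C a =>
    rw [dd_C, aeval_C]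
    simp
  | add P Q h1 h2 => rw [dd_add, h1, h2, map_add, Polynomial.derivative_add, Polynomial.eval_add]
  | mul_X P i h =>
    have e1 : (Polynomial.C (c i) + Polynomial.X * Polynomial.C (v i) : Polynomial k).eval 0 =
        c i := by simp
    have e2 : (Polynomial.derivative (Polynomial.C (c i) + Polynomial.X * Polynomial.C (v i) :
        Polynomial k)).eval 0 = v i := by simp
    rw [dd_mul, h, dd_X, map_mul, Polynomial.derivative_mul, Polynomial.eval_add,
      Polynomial.eval_mul, Polynomial.eval_mul, hev P, aeval_X, eval_X, e1, e2]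
    ring

end dd

section G

variable {n : ℕ} {k : Type} [Field k]

/-- the determinant -/
def Dt (n : ℕ) (k : Type) [Field k] : MvPolynomial (Fin n × Fin n) k :=
  (Matrix.mvPolynomialX (Fin n) (Fin n) k).det

theorem eval_Dt (A : Matrix (Fin n) (Fin n) k) : eval (ent A) (Dt n k) = A.det := by
  unfold Dt
  rw [Matrix.eval_det_mvPolynomialX]
  rfl

theorem dd_Dt (Y : Matrix (Fin n) (Fin n) k) : dd (Dt n k) (ent 1) (ent Y) = Y.trace := by
  rw [dd_line, ← Matrix.derivative_det_one_add_X_smul Y]
  congr 2
  unfold Dt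
  rw [AlgHom.map_det]
  congr 1
  ext1 i j
  simp only [AlgHom.mapMatrix_apply, Matrix.map_apply, Matrix.mvPolynomialX_apply, aeval_X, ent,
    Matrix.add_apply, Matrix.smul_apply, smul_eq_mul]
  congr 1
  rw [Matrix.one_apply, Matrix.one_apply]
  split_ifs <;> simp

theorem rep_val {f : GL (Fin n) k → k} {p : MvPolynomial (Fin n × Fin n) k} {m : ℕ}
    (h : RepG f p m) : eval (ent 1) p = f 1 := by
  have h1 := h 1
  simp only [Units.val_one, Matrix.det_one, one_pow, mul_one] at h1
  exact h1.symm

/-- independence of the representation -/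
theorem rep_eq [Infinite k] {f : GL (Fin n) k → k} {p p' : MvPolynomial (Fin n × Fin n) k}
    {m m' : ℕ} (h : RepG f p m) (h' : RepG f p' m') : p * Dt n k ^ m' = p' * Dt n k ^ m := by
  have hD : Dt n k ≠ 0 := Matrix.det_mvPolynomialX_ne_zero (Fin n) k
  have h1 : (p * Dt n k ^ m' - p' * Dt n k ^ m) * Dt n k = 0 := by
    apply MvPolynomial.funext
    intro x
    set A : Matrix (Fin n) (Fin n) k := Matrix.of fun i j => x (i, j) with hA
    have hx : x = ent A := by
      funext q
      rfl
    rw [hx, map_mul, map_sub, map_mul, map_mul, map_pow, map_pow, eval_Dt, map_zero]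
    by_cases hdet : A.det = 0
    · rw [hdet, mul_zero]
    · have hu : IsUnit A := (Matrix.isUnit_iff_isUnit_det A).2 (isUnit_iff_ne_zero.2 hdet)
      obtain ⟨g, hg⟩ := hu
      have e1 := h g
      have e2 := h' g
      rw [hg] at e1 e2
      rw [← e1, ← e2]
      ring
  have h2 := (mul_eq_zero.1 h1).resolve_right hD
  exact sub_eq_zero.1 h2

theorem dg_rep [Infinite k] {f : GL (Fin n) k → k} {p : MvPolynomial (Fin n × Fin n) k} {m : ℕ}
    (h : RepG f p m) (Y : Matrix (Fin n) (Fin n) k) : dG f Y =
    dd p (ent 1) (ent Y) - m * Y.trace * eval (ent 1) p := by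
  have hreg : RegG f := ⟨p, m, h⟩
  unfold dG
  rw [dif_pos hreg]
  have h' : RepG f hreg.choose hreg.choose_spec.choose := hreg.choose_spec.choose_spec
  set p' := hreg.choose
  set m' := hreg.choose_spec.choose
  have h1 := congrArg (fun P => dd P (ent 1) (ent Y)) (rep_eq h h')
  have hone : eval (ent (1 : Matrix (Fin n) (Fin n) k)) (Dt n k) = 1 := by
    rw [eval_Dt, Matrix.det_one]
  simp only [dd_mul, map_pow, hone, one_pow, one_mul] at h1
  rw [dd_pow _ _ _ hone, dd_pow _ _ _ hone, dd_Dt, rep_val h, rep_val h'] at h1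
  rw [rep_val h, rep_val h']
  linear_combination -h1

end G

theorem t_DG (n : ℕ) (k : Type) [Field k] [IsAlgClosed k] [CharZero k] : S_DG n k where
  rep f p m h Y := dg_rep h Y
  add f f' h h' Y := by
    obtain ⟨P, m, h⟩ := h
    obtain ⟨P', m', h'⟩ := h'
    have h3 : RepG (f + f') (P * Dt n k ^ m' + P' * Dt n k ^ m) (m + m') := by
      intro x
      rw [map_add, map_mul, map_mul, map_pow, map_pow, eval_Dt, ← h x, ← h' x, Pi.add_apply,
        pow_add]
      ring
    have hone : eval (ent (1 : Matrix (Fin n) (Fin n) k)) (Dt n k) = 1 := by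
      rw [eval_Dt, Matrix.det_one]
    rw [dg_rep h3, dg_rep h, dg_rep h', dd_add, dd_mul, dd_mul, dd_pow _ _ _ hone,
      dd_pow _ _ _ hone, dd_Dt]
    simp only [map_add, map_mul, map_pow, hone, one_pow, mul_one, one_mul]
    push_cast
    ring
  mul f f' h h' Y := by
    obtain ⟨P, m, h⟩ := h
    obtain ⟨P', m', h'⟩ := h'
    have h3 : RepG (f * f') (P * P') (m + m') := by
      intro x
      rw [map_mul, ← h x, ← h' x, Pi.mul_apply, pow_add]
      ring
    rw [dg_rep h3, dg_rep h, dg_rep h', dd_mul, map_mul, ← rep_val h, ← rep_val h']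
    push_cast
    ring
  const a Y := by
    have h3 : RepG (fun _ : GL (Fin n) k => a) (C a) 0 := by
      intro x
      rw [pow_zero, mul_one, eval_C]
    rw [dg_rep h3, dd_C]
    simp
  add_v f h Y Y' := by
    obtain ⟨P, m, h⟩ := h
    rw [dg_rep h, dg_rep h, dg_rep h]
    have : ent (Y + Y') = ent Y + ent Y' := rfl
    rw [this, dd_addv, Matrix.trace_add]
    ring
  smul_v f h a Y := by
    obtain ⟨P, m, h⟩ := h
    rw [dg_rep h, dg_rep h]
    have : ent (a • Y) = a • ent Y := rfl
    rw [this, dd_smulv, Matrix.trace_smul, smul_eq_mul]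
    ring

end

end Run7.h594.MD
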