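import Pool.Agent.Run7.h342.MD.Stm

/-!
# Piece INF of project MD (helper342), by helper594

(a) If `Y x = lam x`, `x ≠ 0`, then `Y (F x) = d lam F x` (Euler), so `lam = 0` (iterate). So `Y` is nilpotent.
(b) `z(s) = ∑ s^j/j! Y^j x`, `p = F(z(s))` satisfies `p' = Y p`, so its degree is at most `m`.
-/

set_option autoImplicit false
set_option linter.all false

namespace Run7.h594.MD

open MvPolynomial Run7.h342.MD

noncomputable section

section

variable {n d : ℕ} {k : Type} [Field k]

/-- the polynomial identity -/
theorem lie_id {Y : Matrix (Fin n) (Fin n) k} {c : Ix n d → k} (h : lie Y c = 0) (i : Fin n) :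
    ∑ j, C (Y i j) * pol c j = ∑ l, (∑ m, C (Y l m) * X m) * pderiv l (pol c i) := by
  have h1 : (∑ j, C (Y i j) * pol c j - ∑ l, (∑ m, C (Y l m) * X m) * pderiv l (pol c i) :
      MvPolynomial (Fin n) k).IsHomogeneous d := by
    refine IsHomogeneous.sub ?_ ?_
    · refine IsHomogeneous.sum _ _ _ fun j _ => ?_
      have := (isHomogeneous_C (Fin n) (Y i j)).mul (isHomogeneous_pol c j)
      rwa [zero_add] at this
    · refine IsHomogeneous.sum _ _ _ fun l _ => ?_
      rcases Nat.eq_zero_or_pos d with hd | hd
      · have h2 : pderiv l (pol c i) = 0 := by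
          have h3 := (isHomogeneous_pol c i).totalDegree_le
          have h4 : pol c i = C (coeff 0 (pol c i)) :=
            totalDegree_eq_zero_iff_eq_C.1 (by omega)
          rw [h4, pderiv_C]
        rw [h2, mul_zero]
        exact isHomogeneous_zero _ _ _
      · have h2 := (isHomogeneous_lin Y l).mul ((isHomogeneous_pol c i).pderiv (i := l))
        have h3 : 1 + (d - 1) = d := by omega
        rwa [h3] at h2
  have h2 := eq_sum_of_isHomogeneous h1
  have h3 : (∑ j, C (Y i j) * pol c j - ∑ l, (∑ m, C (Y l m) * X m) * pderiv l (pol c i) :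
      MvPolynomial (Fin n) k) = 0 := by
    rw [h2]
    refine Finset.sum_eq_zero fun s _ => ?_
    have h4 : coeff (Multiset.toFinsupp (s : Multiset (Fin n))) (∑ j, C (Y i j) * pol c j -
        ∑ l, (∑ m, C (Y l m) * X m) * pderiv l (pol c i)) = 0 := congrFun h (i, s)
    rw [h4, map_zero, zero_mul]
  exact sub_eq_zero.1 h3

theorem eig {Y : Matrix (Fin n) (Fin n) k} {c : Ix n d → k} (h : lie Y c = 0) {x : Fin n → k}
    {lam : k} (hx : Y.mulVec x = lam • x) : Y.mulVec (ev c x) = ((d : k) * lam) • ev c x := by
  funext i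
  have h1 := congrArg (eval x) (lie_id h i)
  rw [map_sum, map_sum] at h1
  have h2 : ∀ l, eval x ((∑ m, C (Y l m) * X m) * pderiv l (pol c i)) =
      lam * (x l * eval x (pderiv l (pol c i))) := by
    intro l
    rw [map_mul, map_sum]
    have h3 : ∑ m, eval x (C (Y l m) * X m) = lam * x l := by
      have h4 := congrFun hx l
      simp only [Matrix.mulVec, dotProduct, Pi.smul_apply, smul_eq_mul] at h4
      rw [← h4]
      refine Finset.sum_congr rfl fun m _ => ?_
      rw [map_mul, eval_C, eval_X]
    rw [h3, mul_assoc]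
  have h5 : ∑ l, x l * eval x (pderiv l (pol c i)) = d * ev c x i := by
    have h6 := congrArg (eval x) (IsHomogeneous.sum_X_mul_pderiv (isHomogeneous_pol c i))
    rw [map_sum] at h6
    rw [← eval_pol, ← nsmul_eq_mul, ← map_nsmul, ← h6]
    refine Finset.sum_congr rfl fun l _ => ?_
    rw [map_mul, eval_X]
  simp only [h2] at h1
  rw [← Finset.mul_sum, h5] at h1
  simp only [Matrix.mulVec, dotProduct, Pi.smul_apply, smul_eq_mul]
  rw [show (d : k) * lam * ev c x i = lam * (d * ev c x i) by ring, ← h1]
  refine Finset.sum_congr rfl fun j _ => ?_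
  rw [map_mul, eval_C, eval_pol]

/-- chain rule -/
theorem chain (z : Fin n → Polynomial k) (P : MvPolynomial (Fin n) k) :
    Polynomial.derivative (aeval z P) = ∑ l, aeval z (pderiv l P) * Polynomial.derivative (z l) := by
  induction P using MvPolynomial.induction_on with
  | C a =>
    rw [aeval_C]
    simp
  | add P Q h1 h2 =>
    rw [map_add, Polynomial.derivative_add, h1, h2, ← Finset.sum_add_distrib]
    refine Finset.sum_congr rfl fun l _ => ?_
    rw [map_add, map_add, add_mul]
  | mul_X P i h =>
    rw [map_mul, Polynomial.derivative_mul, h, aeval_X]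
    have h1 : ∀ l, aeval z (pderiv l (P * X i)) * Polynomial.derivative (z l) =
        aeval z (pderiv l P) * Polynomial.derivative (z l) * z i +
          (if l = i then aeval z P * Polynomial.derivative (z i) else 0) := by
      intro l
      rw [Derivation.leibniz, map_add, smul_eq_mul, smul_eq_mul, map_mul, map_mul, aeval_X]
      by_cases hl : l = i
      · subst hl
        rw [pderiv_X_self, map_one, if_pos rfl]
        ring
      · rw [pderiv_X_of_ne (Ne.symm hl), map_zero, if_neg hl]
        ring
    simp only [h1]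
    rw [Finset.sum_add_distrib, ← Finset.sum_mul, Finset.sum_ite_eq' Finset.univ i,
      if_pos (Finset.mem_univ i)]

end

section

variable {n d : ℕ} {k : Type} [Field k] [IsAlgClosed k] [CharZero k]

theorem eig_zero (hd : 2 ≤ d) {Y : Matrix (Fin n) (Fin n) k} {c : Ix n d → k} (hc : Nondeg c)
    (h : lie Y c = 0) {x : Fin n → k} (hx0 : x ≠ 0) {lam : k} (hx : Y.mulVec x = lam • x) :
    lam = 0 := by
  by_contra hl
  have key : ∀ j : ℕ, ∃ y : Fin n → k, y ≠ 0 ∧ Y.mulVec y = ((d : k) ^ j * lam) • y := by
    intro j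
    induction j with
    | zero => exact ⟨x, hx0, by rw [pow_zero, one_mul]; exact hx⟩
    | succ j ih =>
      obtain ⟨y, hy0, hy⟩ := ih
      refine ⟨ev c y, fun h0 => hy0 (hc y h0), ?_⟩
      rw [eig h hy, pow_succ]
      congr 1
      ring
  have hfin := Module.End.finite_hasEigenvalue (Matrix.toLin' Y)
  refine Set.infinite_of_injective_forall_mem (f := fun j : ℕ => (d : k) ^ j * lam) ?_ ?_ hfin
  · intro a b hab
    have h1 := mul_right_cancel₀ hl hab
    have h2 : d ^ a = d ^ b := by exact_mod_cast h1
    exact Nat.pow_right_injective hd h2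
  · intro j
    obtain ⟨y, hy0, hy⟩ := key j
    exact Module.End.hasEigenvalue_of_hasEigenvector (x := y)
      ⟨Module.End.mem_eigenspace_iff.2 (by rw [Matrix.toLin'_apply]; exact hy), hy0⟩

theorem nilp (hd : 2 ≤ d) {Y : Matrix (Fin n) (Fin n) k} {c : Ix n d → k} (hc : Nondeg c)
    (h : lie Y c = 0) : ∃ N : ℕ, Y ^ N = 0 := by
  set f := Matrix.toLin' Y with hf
  have hroot : ∀ a ∈ f.charpoly.roots, a = 0 := by
    intro a ha
    have h1 : f.charpoly.IsRoot a := Polynomial.isRoot_of_mem_roots ha
    rw [← Module.End.hasEigenvalue_iff_isRoot_charpoly] at h1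
    obtain ⟨x, hx⟩ := h1.exists_hasEigenvector
    have h2 := hx.1
    rw [Module.End.mem_eigenspace_iff, hf, Matrix.toLin'_apply] at h2
    exact eig_zero hd hc h hx.2 h2
  have h1 := (IsAlgClosed.splits f.charpoly).eq_prod_roots_of_monic f.charpoly_monic
  have h2 : f.charpoly.roots.map (fun a => Polynomial.X - Polynomial.C a) =
      Multiset.replicate (Multiset.card f.charpoly.roots) (Polynomial.X : Polynomial k) := by
    rw [Multiset.map_congr rfl (fun a ha => by
      rw [hroot a ha, map_zero, sub_zero] :
      ∀ a ∈ f.charpoly.roots, Polynomial.X - Polynomial.C a = (Polynomial.X : Polynomial k)),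
      Multiset.map_const']
  rw [h2, Multiset.prod_replicate] at h1
  refine ⟨Multiset.card f.charpoly.roots, ?_⟩
  have h3 := LinearMap.aeval_self_charpoly f
  rw [h1, map_pow, Polynomial.aeval_X, hf, ← Matrix.toLin'_pow] at h3
  exact Matrix.toLin'.injective (by rw [h3, map_zero])

theorem t_INF' (hd : 2 ≤ d) (c : Ix n d → k) (hc : Nondeg c) (Y : Matrix (Fin n) (Fin n) k)
    (h : lie Y c = 0) : Y = 0 := by
  classical
  by_contra hY
  have hex := nilp hd hc h
  set N := Nat.find hex with hN
  have hN0 : Y ^ N = 0 := Nat.find_spec hex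
  have hN2 : 2 ≤ N := by
    by_contra hlt
    push Not at hlt
    interval_cases hNN : N
    · apply hY
      rw [pow_zero] at hN0
      rw [← mul_one Y, hN0, mul_zero]
    · apply hY
      rwa [pow_one] at hN0
  obtain ⟨m, hm⟩ : ∃ m, N = m + 1 := ⟨N - 1, by omega⟩
  have hm1 : 1 ≤ m := by omega
  have hYm : Y ^ m ≠ 0 := Nat.find_min hex (by omega)
  obtain ⟨x, hx⟩ : ∃ x, (Y ^ m).mulVec x ≠ 0 := by
    by_contra hcon
    push Not at hcon
    apply hYm
    rw [Matrix.ext_iff_mulVec]
    intro v
    rw [hcon v, Matrix.zero_mulVec]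
  rw [hm] at hN0
  -- the curve
  obtain ⟨z, hz⟩ : ∃ z : Fin n → Polynomial k, z = fun l => ∑ j ∈ Finset.range (m + 1),
    Polynomial.monomial j (((j.factorial : k))⁻¹ * (Y ^ j).mulVec x l) := ⟨_, rfl⟩
  have hzc : ∀ l j, (z l).coeff j = if j ≤ m then ((j.factorial : k))⁻¹ * (Y ^ j).mulVec x l else 0 := by
    intro l j
    rw [hz]
    simp only [Polynomial.finset_sum_coeff, Polynomial.coeff_monomial]
    rw [Finset.sum_ite_eq' (Finset.range (m + 1)) j]
    simp only [Finset.mem_range, Nat.lt_succ_iff]
  have hzd : ∀ l, (z l).natDegree ≤ m := by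
    intro l
    rw [Polynomial.natDegree_le_iff_coeff_eq_zero]
    intro j hj
    rw [hzc, if_neg (by omega)]
  have hzder : ∀ l, Polynomial.derivative (z l) = ∑ q, Polynomial.C (Y l q) * z q := by
    intro l
    ext j
    rw [Polynomial.coeff_derivative, Polynomial.finset_sum_coeff, hzc]
    simp only [Polynomial.coeff_C_mul, hzc]
    by_cases hj : j ≤ m
    · simp only [if_pos hj]
      have e1 : ∑ q, Y l q * (((j.factorial : k))⁻¹ * (Y ^ j).mulVec x q) =
          ((j.factorial : k))⁻¹ * (Y ^ (j + 1)).mulVec x l := by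
        rw [pow_succ', ← Matrix.mulVec_mulVec]
        simp only [Matrix.mulVec, dotProduct]
        rw [Finset.mul_sum]
        refine Finset.sum_congr rfl fun q _ => ?_
        ring
      rw [e1]
      by_cases hj' : j + 1 ≤ m
      · rw [if_pos hj', Nat.factorial_succ]
        have h0 : ((j : k) + 1) ≠ 0 := by exact_mod_cast Nat.succ_ne_zero j
        have h0' : (j.factorial : k) ≠ 0 := by exact_mod_cast Nat.factorial_ne_zero j
        push_cast
        field_simp
      · rw [if_neg hj', zero_mul]
        have : j = m := by omega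
        rw [this, hN0, Matrix.zero_mulVec]
        simp
    · rw [if_neg (by omega), zero_mul]
      simp only [if_neg hj, mul_zero, Finset.sum_const_zero]
  -- the values
  obtain ⟨p, hp⟩ : ∃ p : Fin n → Polynomial k, p = fun i => aeval z (pol c i) := ⟨_, rfl⟩
  have hpder : ∀ i, Polynomial.derivative (p i) = ∑ j, Polynomial.C (Y i j) * p j := by
    intro i
    rw [hp]
    simp only
    rw [chain]
    have h1 := congrArg (aeval z) (lie_id h i)
    rw [map_sum, map_sum] at h1
    have h2 : ∑ j, Polynomial.C (Y i j) * aeval z (pol c j) = ∑ j, aeval z (C (Y i j) * pol c j) := by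
      refine Finset.sum_congr rfl fun j _ => ?_
      rw [map_mul, aeval_C]
      rfl
    rw [h2, h1]
    refine Finset.sum_congr rfl fun l _ => ?_
    rw [map_mul, map_sum, hzder, mul_comm]
    congr 1
    refine Finset.sum_congr rfl fun q _ => ?_
    rw [map_mul, aeval_C, aeval_X]
    rfl
  have hcoef : ∀ N : ℕ, (fun i => (N.factorial : k) * (p i).coeff N) =
      (Y ^ N).mulVec (fun i => (p i).coeff 0) := by
    intro N
    induction N with
    | zero =>
      funext i
      simp
    | succ N ih =>
      rw [pow_succ', ← Matrix.mulVec_mulVec, ← ih]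
      funext i
      have h1 := congrArg (fun q : Polynomial k => q.coeff N) (hpder i)
      simp only [Polynomial.coeff_derivative, Polynomial.finset_sum_coeff,
        Polynomial.coeff_C_mul] at h1
      simp only [Matrix.mulVec, dotProduct]
      rw [Nat.factorial_succ]
      push_cast
      rw [show ((N : k) + 1) * (N.factorial : k) * (p i).coeff (N + 1) =
        (N.factorial : k) * ((p i).coeff (N + 1) * ((N : k) + 1)) by ring, h1, Finset.mul_sum]
      refine Finset.sum_congr rfl fun j _ => ?_
      ring
  have hzero : ∀ i, (p i).coeff (d * m) = 0 := by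
    intro i
    have h1 : Y ^ (d * m) = 0 := by
      have h2 : m + 1 ≤ d * m := by nlinarith
      obtain ⟨e, he⟩ := Nat.exists_eq_add_of_le h2
      rw [he, pow_add, hN0, zero_mul]
    have h3 := congrFun (hcoef (d * m)) i
    rw [h1, Matrix.zero_mulVec, Pi.zero_apply] at h3
    have h4 : ((d * m).factorial : k) ≠ 0 := by exact_mod_cast Nat.factorial_ne_zero _
    exact (mul_eq_zero.1 h3).resolve_left h4
  have htop : ∀ i, (p i).coeff (d * m) = ev c (fun l => (z l).coeff m) i := by
    intro i
    rw [hp]
    simp only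
    unfold pol ev
    rw [map_sum, Polynomial.finset_sum_coeff]
    refine Finset.sum_congr rfl fun s _ => ?_
    rw [map_mul, aeval_C]
    have h1 : (aeval z) ((s : Multiset (Fin n)).map (X : Fin n → MvPolynomial (Fin n) k)).prod = ((s : Multiset (Fin n)).map z).prod := by
      rw [map_multiset_prod, Multiset.map_map]
      congr 1
      refine Multiset.map_congr rfl fun l _ => ?_
      simp
    rw [h1]
    change (Polynomial.C (c (i, s)) * _).coeff (d * m) = _
    rw [Polynomial.coeff_C_mul]
    congr 1
    have h2 := Polynomial.coeff_multiset_prod_of_natDegree_le ((s : Multiset (Fin n)).map z) m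
      (by
        intro q hq
        obtain ⟨l, _, rfl⟩ := Multiset.mem_map.1 hq
        exact hzd l)
    rw [Multiset.card_map, show Multiset.card (s : Multiset (Fin n)) = d from s.2,
      Multiset.map_map] at h2
    rw [h2]
    rfl
  have hfin : (fun l => (z l).coeff m) = 0 := by
    apply hc
    funext i
    rw [← htop, hzero]
    rfl
  apply hx
  funext l
  have h1 := congrFun hfin l
  simp only [hzc, if_pos le_rfl, Pi.zero_apply] at h1
  have h2 : ((m.factorial : k))⁻¹ ≠ 0 := inv_ne_zero (by exact_mod_cast Nat.factorial_ne_zero m)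
  exact (mul_eq_zero.1 h1).resolve_left h2

end

theorem t_INF (n d : ℕ) (k : Type) [Field k] [IsAlgClosed k] [CharZero k] (hn : 3 ≤ n) (hd : 2 ≤ d) :
    S_INF n d k := fun c hc Y h => t_INF' hd c hc Y h

end

end Run7.h594.MD
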